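import Pool.Agent.Helper17.FP.Stmts

/-! TWO: at most `2 (x / q + 1)` integers. -/

set_option autoImplicit false

open Finset

namespace Pool.Agent.Helper17.FP

open Pool.Agent.Helper17.SO Pool.Agent.Helper17.SV

theorem st_TWO (hC : ST_CL2) : ST_TWO := by
  classical
  intro lam q x hq S hS
  obtain ⟨R, hR, hRk⟩ := hC lam q hq
  have hq0 : 0 < q := hq.pos
  have h1 := Finset.card_le_mul_card_image_of_maps_to (s := S) (t := R) (f := fun k => k % q)
    (fun k hk => hRk k (hS k hk).2) (x / q + 1) (by
      intro b _
      have h2 : ((S.filter fun k => k % q = b).card) ≤ (Finset.range (x / q + 1)).card := by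
        refine Finset.card_le_card_of_injOn (fun k => k / q) ?_ ?_
        · intro k hk
          have hk' := Finset.mem_filter.mp (Finset.mem_coe.mp hk)
          have h3 : k / q ≤ x / q := Nat.div_le_div_right (hS k hk'.1).1
          exact Finset.mem_coe.mpr (Finset.mem_range.mpr (Nat.lt_succ_of_le h3))
        · intro k hk l hl hkl
          have hk' := Finset.mem_filter.mp (Finset.mem_coe.mp hk)
          have hl' := Finset.mem_filter.mp (Finset.mem_coe.mp hl)
          have h3 : k / q = l / q := hkl
          have h4 := Nat.div_add_mod k q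
          have h5 := Nat.div_add_mod l q
          rw [h3, hk'.2] at h4
          rw [hl'.2] at h5
          omega
      rwa [Finset.card_range] at h2)
  have h2 : S.card ≤ (x / q + 1) * 2 := h1.trans (Nat.mul_le_mul_left _ hR)
  have h3 : (S.card : ℝ) ≤ (((x / q : ℕ) : ℝ) + 1) * 2 := by exact_mod_cast h2
  have h4 : ((x / q : ℕ) : ℝ) ≤ (x : ℝ) / q := Nat.cast_div_le
  linarith

end Pool.Agent.Helper17.FP
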