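import Pool.Agent.Helper17.FP.Stmts
import Pool.Agent.Helper17.SO.Main

/-! MAINF (MP_c38931_co): the theorem from the modules DESF and FIN. -/

set_option autoImplicit false

open Finset

namespace Pool.Agent.Helper17.FP

open Pool.Agent.Helper17.SO Pool.Agent.Helper17.SV

private lemma mainf_sqrt (x : ℕ) (hx : 16 ≤ x) :
    (Nat.sqrt x : ℝ) + 1 ≤ 2 * x * (Real.log (Real.log x)) ^ (-(1 / 4) : ℝ) := by
  have hxR : (16 : ℝ) ≤ x := by exact_mod_cast hx
  have hx0 : (0 : ℝ) < x := by linarith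
  have he : Real.exp 1 < x := by
    have := Real.exp_one_lt_d9
    linarith
  have hl1 : 1 < Real.log x := by
    rw [Real.lt_log_iff_exp_lt hx0]
    exact he
  have hll : 0 < Real.log (Real.log x) := Real.log_pos hl1
  have h1 : Real.log (Real.log x) ≤ x := by
    have h2 : Real.log (Real.log x) ≤ Real.log x - 1 :=
      Real.log_le_sub_one_of_pos (by linarith)
    have h3 : Real.log x ≤ x - 1 := Real.log_le_sub_one_of_pos hx0
    linarith
  have h2 : (x : ℝ) ^ (-(1 / 4) : ℝ) ≤ (Real.log (Real.log x)) ^ (-(1 / 4) : ℝ) :=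
    Real.rpow_le_rpow_of_nonpos hll h1 (by norm_num)
  have h3 : (x : ℝ) ^ (-(1 / 2) : ℝ) ≤ (x : ℝ) ^ (-(1 / 4) : ℝ) :=
    Real.rpow_le_rpow_of_exponent_le (by linarith) (by norm_num)
  have h4 : (x : ℝ) * (x : ℝ) ^ (-(1 / 2) : ℝ) = Real.sqrt x := by
    rw [Real.sqrt_eq_rpow]
    nth_rewrite 1 [← Real.rpow_one (x : ℝ)]
    rw [← Real.rpow_add hx0]
    norm_num
  have h5 : (Nat.sqrt x : ℝ) ≤ Real.sqrt x := by
    refine Real.le_sqrt_of_sq_le ?_
    have := Nat.sqrt_le' x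
    exact_mod_cast this
  have h6 : (1 : ℝ) ≤ Real.sqrt x := by
    rw [Real.one_le_sqrt]
    linarith
  have h7 : Real.sqrt x ≤ x * (Real.log (Real.log x)) ^ (-(1 / 4) : ℝ) := by
    rw [← h4]
    exact mul_le_mul_of_nonneg_left (h3.trans h2) hx0.le
  linarith

theorem st_MAINF (hD : ST_DESF) (hF : ST_FIN) : ST_MAINF := by
  classical
  intro lam hlam
  obtain ⟨C1, hC1, h1⟩ := hF lam hlam
  refine ⟨C1 + 2, by linarith, fun x hx S hS => ?_⟩
  set S1 := S.filter (fun k => ∃ r : ℕ, k = r * r + lam) with hS1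
  set S2 := S.filter (fun k => ¬ ∃ r : ℕ, k = r * r + lam) with hS2
  have hcard : S.card = S1.card + S2.card := (Finset.card_filter_add_card_filter_not _).symm
  have h3 : (S1.card : ℝ) ≤ (Nat.sqrt x : ℝ) + 1 := by
    have : S1.card ≤ Nat.sqrt x + 1 := main_squares lam x S1 (fun k hk => by
      rw [hS1, Finset.mem_filter] at hk
      exact ⟨(hS k hk.1).2.1, hk.2⟩)
    exact_mod_cast this
  have h4 := h1 x hx S2 (fun k hk => by
    rw [hS2, Finset.mem_filter] at hk
    obtain ⟨hk1, hk2, v, B, hk3, hk4, hk5⟩ := hS k hk.1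
    refine ⟨hk2, ?_⟩
    rcases hD lam v k B hlam hk1 hk3 hk4 hk5 with h | h
    · exact absurd h hk.2
    · exact h)
  have h5 := mainf_sqrt x hx
  rw [hcard]
  push_cast
  calc (S1.card : ℝ) + S2.card
      ≤ 2 * x * (Real.log (Real.log x)) ^ (-(1 / 4) : ℝ) +
        C1 * x * (Real.log (Real.log x)) ^ (-(1 / 4) : ℝ) := by linarith
    _ = (C1 + 2) * x * (Real.log (Real.log x)) ^ (-(1 / 4) : ℝ) := by ring

end Pool.Agent.Helper17.FP
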